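import Pool.Agent.H26perm.Main

/-!
# The permanent of a random matrix over a finite field of odd order

For every finite field `F` with an odd number `q` of elements, the probability that the permanent
of a uniformly random `n × n` matrix over `F` vanishes tends to `1 / q`; the difference is
nonnegative and at most `4.5 * (26 / 27) ^ n`.

Idea of the proof. Let `ζ n j` be the probability that the `j`-linear form
`(x_1, …, x_j) ↦ per [U, x_1, …, x_j]` vanishes identically, for a random `n × (n - j)` matrix `U`.
The probability in question is `1/q + (1 - 1/q) ζ n 1`. Adding one row and one column, and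
restricting all but one of the old columns to vectors with last entry `0`, one finds
`ζ (n+1) j ≤ ζ n j + q^(-n-1) - c (ζ n j - ζ n (j+1))` with `c = (1-1/q)^2 (1-2/q)`: the gain comes
from the vectors `f = e_{n+1} - w / u_{n+1}`, for which the new form takes the value
`- per [U, w, w, …] / u_{n+1}` at `(f, f, …)`, and a nonzero quadratic form in odd characteristic
is nonzero at a positive proportion of the vectors `w`. The recursion gives the exponential decay.
-/

open Filter Topology

namespace Pool.Agent.Results.MP_b575e9_co.PermanentZero

/-- The probability that the permanent of a uniformly random `n × n` matrix over the finite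
field `F` is zero: the number of the matrices with vanishing permanent divided by the number of
all matrices. -/
noncomputable def permZeroProb (F : Type*) [Field F] (n : ℕ) : ℝ :=
  (Nat.card {A : Matrix (Fin n) (Fin n) F // A.permanent = 0} : ℝ) /
    (Nat.card (Matrix (Fin n) (Fin n) F) : ℝ)

/-- For every finite field `F` whose number `q` of elements is odd, the probability that the
permanent of a uniformly random `n × n` matrix over `F` is zero tends to `1 / q` as `n → ∞`, and
for every `n ≥ 1` it lies between `1 / q` and `1 / q + (9 / 2) * (26 / 27) ^ n`. -/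
theorem result (F : Type*) [Field F] [Finite F] (hodd : Odd (Nat.card F)) :
    Tendsto (fun n : ℕ => permZeroProb F n) atTop (𝓝 (1 / (Nat.card F : ℝ))) ∧
      ∀ n : ℕ, 1 ≤ n → 1 / (Nat.card F : ℝ) ≤ permZeroProb F n ∧
        permZeroProb F n ≤ 1 / (Nat.card F : ℝ) + 9 / 2 * (26 / 27) ^ n := by
  classical
  haveI := Fintype.ofFinite F
  rw [Nat.card_eq_fintype_card] at hodd ⊢
  have h2 : (2 : F) ≠ 0 := by
    apply Ring.two_ne_zero
    intro h
    rw [FiniteField.even_card_iff_char_two] at h
    rw [Nat.odd_iff] at hodd
    omega
  have h3 : 3 ≤ Fintype.card F := by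
    have h4 : 1 < Fintype.card F := Fintype.one_lt_card
    rcases hodd with ⟨k, hk⟩
    omega
  have h3' : (3 : ℝ) ≤ Fintype.card F := by exact_mod_cast h3
  have key : ∀ n : ℕ, 1 ≤ n → 1 / (Fintype.card F : ℝ) ≤ permZeroProb F n ∧
      permZeroProb F n ≤ 1 / (Fintype.card F : ℝ) + 9 / 2 * (26 / 27) ^ n := by
    intro n hn
    have h5 := H26perm.pp_bounds h2 h3' n hn
    rw [H26perm.pp_eq_card] at h5
    exact h5
  refine ⟨?_, key⟩
  have h6 : Tendsto (fun n : ℕ => 1 / (Fintype.card F : ℝ) + 9 / 2 * (26 / 27 : ℝ) ^ n) atTop
      (𝓝 (1 / (Fintype.card F : ℝ))) := by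
    have h7 := ((tendsto_pow_atTop_nhds_zero_of_lt_one (r := (26 / 27 : ℝ)) (by norm_num)
      (by norm_num)).const_mul (9 / 2)).const_add (1 / (Fintype.card F : ℝ))
    rwa [mul_zero, add_zero] at h7
  refine tendsto_of_tendsto_of_tendsto_of_le_of_le' tendsto_const_nhds h6 ?_ ?_
  · filter_upwards [eventually_ge_atTop 1] with n hn using (key n hn).1
  · filter_upwards [eventually_ge_atTop 1] with n hn using (key n hn).2

end Pool.Agent.Results.MP_b575e9_co.PermanentZero
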